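import Mathlib

/-!
# The double Zarankiewicz number grows quadratically

Split the rows into two halves and the columns into two halves, and match the cells of the block
(first half) x (first half) with the cells of the block (second half) x (second half) by 2-edges.
This configuration has no generalized `C_4`-cycle and has `⌊m/2⌋ ⌊n/2⌋` edges.
-/

set_option autoImplicit false

namespace Pool.Agent.Results.MP_af8792_co.QuadraticGrowth

open Finset

/-- The cells of the grid `[m] × [n]`. -/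
abbrev Cell (m n : ℕ) : Type := Fin m × Fin n

/-- A configuration: a set `E1` of 1-edges (cells) and a set `E2` of 2-edges; the 2-edge
`(i,j;k,l)` is written `((i,j),(k,l))`, it has `i ≠ k` and `j ≠ l` and occupies the cells `(i,j)` and
`(k,l)`. No cell is occupied by two different edges. -/
structure Config (m n : ℕ) where
  /-- the 1-edges -/
  E1 : Finset (Cell m n)
  /-- the 2-edges -/
  E2 : Finset (Cell m n × Cell m n)
  nondeg : ∀ e ∈ E2, e.1.1 ≠ e.2.1 ∧ e.1.2 ≠ e.2.2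
  disj₁₂ : ∀ e ∈ E2, e.1 ∉ E1 ∧ e.2 ∉ E1
  disj₂₂ : ∀ e ∈ E2, ∀ e' ∈ E2, e ≠ e' →
    Disjoint ({e.1, e.2} : Finset (Cell m n)) {e'.1, e'.2}

variable {m n : ℕ}

/-- The cell `c` is occupied by a 1-edge or a 2-edge. -/
def Config.Occupied (G : Config m n) (c : Cell m n) : Prop :=
  c ∈ G.E1 ∨ ∃ e ∈ G.E2, c = e.1 ∨ c = e.2

/-- `G` contains a generalized `C_4`-cycle. -/
def Config.HasCycle (G : Config m n) : Prop :=
  (∃ (i k : Fin m) (j l : Fin n), i ≠ k ∧ j ≠ l ∧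
    (i, j) ∈ G.E1 ∧ (i, l) ∈ G.E1 ∧ (k, j) ∈ G.E1 ∧ (k, l) ∈ G.E1) ∨
  (∃ (i k : Fin m) (j l : Fin n), ((i, j), (k, l)) ∈ G.E2 ∧
    G.Occupied (i, l) ∧ G.Occupied (k, j)) ∨
  (∃ (i p k : Fin m) (j q l : Fin n), ((i, j), (p, q)) ∈ G.E2 ∧
    [(k, l), (k, j), (k, q), (i, l), (p, l)].Nodup ∧
    ∀ c ∈ [(k, l), (k, j), (k, q), (i, l), (p, l)], G.Occupied c)

/-- The double Zarankiewicz number: the maximum of `|E₁| + |E₂|` over all configurations with no
generalized `C_4`-cycle. -/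
noncomputable def z₂ (m n : ℕ) : ℕ :=
  sSup {N : ℕ | ∃ G : Config m n, ¬ G.HasCycle ∧ G.E1.card + G.E2.card = N}

/-- the 2-edge belonging to a cell of the first block -/
def blockEdge (m n : ℕ) (c : Fin (m / 2) × Fin (n / 2)) : Cell m n × Cell m n :=
  ((⟨c.1, by omega⟩, ⟨c.2, by omega⟩), (⟨m / 2 + c.1, by omega⟩, ⟨n / 2 + c.2, by omega⟩))

theorem blockEdge_inj (m n : ℕ) : Function.Injective (blockEdge m n) := by
  rintro ⟨a, b⟩ ⟨a', b'⟩ h
  simp only [blockEdge, Prod.mk.injEq, Fin.mk.injEq] at h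
  exact Prod.ext (Fin.ext h.1.1) (Fin.ext h.1.2)

/-- The block configuration. -/
def block (m n : ℕ) : Config m n where
  E1 := ∅
  E2 := univ.image (blockEdge m n)
  nondeg := by
    intro e he
    obtain ⟨c, _, rfl⟩ := mem_image.1 he
    have h1 := c.1.2
    have h2 := c.2.2
    constructor
    · intro h
      have := congrArg Fin.val h
      simp only [blockEdge] at this
      omega
    · intro h
      have := congrArg Fin.val h
      simp only [blockEdge] at this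
      omega
  disj₁₂ := fun e _ => ⟨notMem_empty _, notMem_empty _⟩
  disj₂₂ := by
    intro e he e' he' hne
    obtain ⟨c, _, rfl⟩ := mem_image.1 he
    obtain ⟨c', _, rfl⟩ := mem_image.1 he'
    have h1 := c.1.2
    have h1' := c'.1.2
    rw [Finset.disjoint_left]
    intro x hx hx'
    apply hne
    simp only [blockEdge, mem_insert, mem_singleton] at hx hx'
    have key : c = c' := by
      rcases hx with rfl | rfl <;> rcases hx' with hx' | hx' <;>
        simp only [Prod.mk.injEq, Fin.mk.injEq] at hx'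
      · exact Prod.ext (Fin.ext hx'.1) (Fin.ext hx'.2)
      · omega
      · omega
      · exact Prod.ext (Fin.ext (by omega)) (Fin.ext (by omega))
    rw [key]

theorem block_mem {m n : ℕ} {i k : Fin m} {j l : Fin n} (h : ((i, j), (k, l)) ∈ (block m n).E2) :
    (i : ℕ) < m / 2 ∧ (j : ℕ) < n / 2 ∧ m / 2 ≤ (k : ℕ) ∧ n / 2 ≤ (l : ℕ) := by
  obtain ⟨c, _, hc⟩ := mem_image.1 h
  simp only [blockEdge, Prod.mk.injEq, Fin.ext_iff] at hc
  have h1 := c.1.2
  have h2 := c.2.2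
  omega

theorem block_occ {m n : ℕ} {i : Fin m} {j : Fin n} (h : (block m n).Occupied (i, j)) :
    ((i : ℕ) < m / 2 ∧ (j : ℕ) < n / 2) ∨ (m / 2 ≤ (i : ℕ) ∧ n / 2 ≤ (j : ℕ)) := by
  rcases h with h | ⟨⟨⟨a, b⟩, ⟨c, d⟩⟩, he, h | h⟩
  · exact absurd h (notMem_empty _)
  · have h1 := block_mem he
    simp only [Prod.mk.injEq] at h
    rw [h.1, h.2]
    omega
  · have h1 := block_mem he
    simp only [Prod.mk.injEq] at h
    rw [h.1, h.2]
    omega

theorem block_noCycle (m n : ℕ) : ¬ (block m n).HasCycle := by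
  rintro (⟨i, k, j, l, _, _, h, _⟩ | ⟨i, k, j, l, h, h1, _⟩ | ⟨i, p, k, j, q, l, h, _, h1⟩)
  · exact absurd h (notMem_empty _)
  · have a1 := block_mem h
    have a2 := block_occ h1
    omega
  · have a1 := block_mem h
    have a2 := block_occ (h1 (k, j) (by simp))
    have a3 := block_occ (h1 (k, q) (by simp))
    omega

theorem le_z₂ (m n : ℕ) : (m / 2) * (n / 2) ≤ z₂ m n := by
  refine le_csSup ⟨Fintype.card (Cell m n) + Fintype.card (Cell m n × Cell m n), ?_⟩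
    ⟨block m n, block_noCycle m n, ?_⟩
  · rintro N ⟨G, _, rfl⟩
    exact Nat.add_le_add (card_le_univ _) (card_le_univ _)
  · simp [block, card_image_of_injective _ (blockEdge_inj m n)]

/-- For all `m, n` the double Zarankiewicz number `z₂(m,n)` is at least `⌊m/2⌋ ⌊n/2⌋`. Hence there is
no constant `C` with `z₂(m,n) ≤ C (m n^{1/2} + n)` for all `m, n ≥ 2`. -/
theorem result :
    (∀ m n : ℕ, 2 ≤ m → 2 ≤ n → (m / 2) * (n / 2) ≤ z₂ m n) ∧
    ¬ ∃ C : ℝ, ∀ m n : ℕ, 2 ≤ m → 2 ≤ n → (z₂ m n : ℝ) ≤ C * (m * (n : ℝ) ^ (1 / 2 : ℝ) + n) := by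
  refine ⟨fun m n _ _ => le_z₂ m n, ?_⟩
  rintro ⟨C, hC⟩
  obtain ⟨s, hs⟩ := exists_nat_gt (max (3 * C) 1)
  have hs1 : (1 : ℝ) < s := (le_max_right _ _).trans_lt hs
  have hs3 : 3 * C < s := (le_max_left _ _).trans_lt hs
  have hs1' : 1 < s := by exact_mod_cast hs1
  have h1 := hC (4 * s ^ 2) (4 * s ^ 2) (by nlinarith) (by nlinarith)
  have h2 := le_z₂ (4 * s ^ 2) (4 * s ^ 2)
  have e1 : 4 * s ^ 2 / 2 = 2 * s ^ 2 := by omega
  rw [e1] at h2
  have h3 : ((2 * s ^ 2 * (2 * s ^ 2) : ℕ) : ℝ) ≤ z₂ (4 * s ^ 2) (4 * s ^ 2) := by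
    exact_mod_cast h2
  have e2 : (((4 * s ^ 2 : ℕ) : ℝ)) ^ (1 / 2 : ℝ) = 2 * s := by
    rw [← Real.sqrt_eq_rpow]
    have : (((4 * s ^ 2 : ℕ) : ℝ)) = (2 * (s : ℝ)) ^ 2 := by push_cast; ring
    rw [this, Real.sqrt_sq (by positivity)]
  rw [e2] at h1
  have h4 := h3.trans h1
  push_cast at h4
  have hs0 : (0 : ℝ) < s := by linarith
  -- `4 s ^ 4 ≤ C (8 s ^ 3 + 4 s ^ 2)`
  have h5 : 4 * (s : ℝ) ^ 4 ≤ C * (8 * s ^ 3 + 4 * s ^ 2) := by
    calc 4 * (s : ℝ) ^ 4 = 2 * s ^ 2 * (2 * s ^ 2) := by ring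
      _ ≤ _ := h4
      _ = _ := by ring
  have hCpos : 0 < C := by
    by_contra hneg
    push Not at hneg
    have : C * (8 * (s : ℝ) ^ 3 + 4 * s ^ 2) ≤ 0 :=
      mul_nonpos_of_nonpos_of_nonneg hneg (by positivity)
    have : 0 < 4 * (s : ℝ) ^ 4 := by positivity
    linarith
  have h6 : C * (8 * (s : ℝ) ^ 3 + 4 * s ^ 2) ≤ C * (12 * s ^ 3) := by
    apply mul_le_mul_of_nonneg_left _ hCpos.le
    nlinarith [pow_pos hs0 2]
  have h7 : C * (12 * (s : ℝ) ^ 3) < 4 * s ^ 4 := by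
    have : (3 * C) * (4 * (s : ℝ) ^ 3) < s * (4 * s ^ 3) :=
      mul_lt_mul_of_pos_right hs3 (by positivity)
    nlinarith
  linarith

end Pool.Agent.Results.MP_af8792_co.QuadraticGrowth
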